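import Pool.Agent.R507.SB.Arith
import Pool.Agent.Y471.SQ3.Cluster

/-!
# The number `α` attached to the data, its approximation property
-/

set_option autoImplicit false

namespace Pool.Agent.R507.SB

open Filter Topology

namespace Dat

variable (D : Dat)

/-- the number -/
noncomputable def alpha : ℝ := (D.p0 : ℝ) / 4 ^ D.m + ∑' k : ℕ, (1 / (4 : ℝ)) ^ D.n (k + 1)

/-- the tails -/
noncomputable def S (k : ℕ) : ℝ := ∑' i : ℕ, (1 / (4 : ℝ)) ^ D.n (i + k + 1)

lemma summable_all : Summable fun k : ℕ => (1 / (4 : ℝ)) ^ D.n (k + 1) := by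
  refine Summable.of_nonneg_of_le (fun j => by positivity) (fun j => ?_)
    (summable_geometric_of_lt_one (by norm_num) (by norm_num : (1 / (4 : ℝ)) < 1))
  have h := D.n_lin (j + 1)
  exact pow_le_pow_of_le_one (by norm_num) (by norm_num) (by omega)

lemma summable_tail (k : ℕ) : Summable fun i : ℕ => (1 / (4 : ℝ)) ^ D.n (i + k + 1) :=
  (summable_nat_add_iff k).mpr D.summable_all

lemma Q_cast (k : ℕ) : (D.Q k : ℝ) = (4 : ℝ) ^ D.n k := by
  unfold Q; push_cast; rfl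

lemma Q_pos (k : ℕ) : (0 : ℝ) < D.Q k := by rw [Q_cast]; positivity

lemma Q_succ_cast (k : ℕ) : (D.Q (k + 1) : ℝ) = (4 : ℝ) ^ D.e k * (D.Q k : ℝ) ^ 2 := by
  rw [Q_succ]; push_cast; ring

lemma partial_sum (k : ℕ) : (D.p0 : ℝ) / 4 ^ D.m +
    ∑ i ∈ Finset.range k, (1 / (4 : ℝ)) ^ D.n (i + 1) = (D.p k : ℝ) / (D.Q k : ℝ) := by
  induction k with
  | zero =>
    simp only [Finset.range_zero, Finset.sum_empty, add_zero]
    rw [Q_cast]
    rfl
  | succ k ih =>
    rw [Finset.sum_range_succ, ← add_assoc, ih]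
    have h3 : (1 / (4 : ℝ)) ^ D.n (k + 1) = 1 / (D.Q (k + 1) : ℝ) := by
      rw [Q_cast, one_div_pow]
    have h2 : (D.p (k + 1) : ℝ) = (4 : ℝ) ^ D.e k * D.Q k * D.p k + 1 := by
      rw [p_succ]; push_cast; ring
    rw [h3, h2, Q_succ_cast]
    have hq : (D.Q k : ℝ) ≠ 0 := (D.Q_pos k).ne'
    field_simp

lemma alpha_eq (k : ℕ) : D.alpha = (D.p k : ℝ) / (D.Q k : ℝ) + D.S k := by
  rw [← partial_sum]
  unfold alpha S
  have h1 := D.summable_all.sum_add_tsum_nat_add k
  rw [← h1, add_assoc]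

lemma S_lower (k : ℕ) : 1 / (D.Q (k + 1) : ℝ) ≤ D.S k := by
  have h1 := (D.summable_tail k).le_tsum 0 (fun i _ => by positivity)
  unfold S
  refine le_trans (le_of_eq ?_) h1
  rw [Q_cast, one_div_pow]
  simp

lemma S_upper (k : ℕ) : D.S k ≤ 2 / (D.Q (k + 1) : ℝ) := by
  have h := (Pool.Agent.Results.MP_ba281e_nt.NoPoissonSubseq.tail_bounds
    (fun i => D.n (i + k + 1)) (D.summable_tail k) (D.n (k + 1)) (fun i => by
      have := D.n_add (k + 1) i
      have h2 : i + k + 1 = i + (k + 1) := by ring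
      show D.n (k + 1) + i ≤ D.n (i + k + 1)
      rw [h2]
      exact this)).2
  rw [Q_cast]
  exact h

lemma S_pos (k : ℕ) : 0 < D.S k := lt_of_lt_of_le (by have := D.Q_pos (k + 1); positivity) (D.S_lower k)

lemma M_pos : (0 : ℤ) < D.M := by unfold M; positivity

lemma Q_lin (k : ℕ) : (k : ℤ) < D.Q k := by
  have h1 := D.n_lin k
  have h2 : k < 4 ^ k := Nat.lt_pow_self (by norm_num)
  have h3 : 4 ^ k ≤ 4 ^ D.n k := Nat.pow_le_pow_right (by norm_num) (by omega)
  have h4 : ((4 ^ D.n k : ℕ) : ℤ) = D.Q k := by unfold Q; push_cast; rfl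
  rw [← h4]
  exact_mod_cast lt_of_lt_of_le h2 h3

/-- `α` is badly approximable -/
lemma approx (a b : ℤ) (hb : 1 ≤ b) : 4 / ((D.M : ℝ) * b) ≤ |(b : ℝ) * D.alpha - a| := by
  have hbR : (1 : ℝ) ≤ b := by exact_mod_cast hb
  have hM : (0 : ℝ) < D.M := by exact_mod_cast D.M_pos
  apply le_of_forall_pos_le_add
  intro ε hε
  obtain ⟨K, hK⟩ := exists_nat_gt (2 * (b : ℝ) / ε)
  set k : ℕ := K + b.toNat with hk
  have hbk : b ≤ (k : ℤ) := by
    have := Int.self_le_toNat b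
    rw [hk]
    push_cast
    omega
  have hQk : b < D.Q k := lt_of_le_of_lt hbk (D.Q_lin k)
  have hkey := D.key' k b a (by omega) (by rwa [abs_of_pos (by omega)])
  rw [abs_of_pos (by omega : 0 < b)] at hkey
  have hkeyR : 4 * (D.Q k : ℝ) ≤ D.M * (b * |(b : ℝ) * D.p k - a * D.Q k|) := by
    exact_mod_cast hkey
  have hQ := D.Q_pos k
  have h1 : 4 / ((D.M : ℝ) * b) ≤ |(b : ℝ) * (D.p k / D.Q k) - a| := by
    have : (b : ℝ) * (D.p k / D.Q k) - a = (b * D.p k - a * D.Q k) / D.Q k := by field_simp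
    rw [this, abs_div, abs_of_pos hQ, div_le_div_iff₀ (by positivity) hQ]
    linarith
  have h2 : |(b : ℝ) * (D.p k / D.Q k) - a| - |(b : ℝ) * D.alpha - a| ≤ b * (2 / D.Q (k + 1)) := by
    have h3 := abs_sub_abs_le_abs_sub ((b : ℝ) * (D.p k / D.Q k) - a) ((b : ℝ) * D.alpha - a)
    have h4 : ((b : ℝ) * (D.p k / D.Q k) - a) - ((b : ℝ) * D.alpha - a) = -(b * D.S k) := by
      rw [D.alpha_eq k]; ring
    rw [h4, abs_neg, abs_of_pos (mul_pos (by linarith) (D.S_pos k))] at h3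
    have h5 : (b : ℝ) * D.S k ≤ b * (2 / D.Q (k + 1)) :=
      mul_le_mul_of_nonneg_left (D.S_upper k) (by linarith)
    linarith
  have h3 : (b : ℝ) * (2 / D.Q (k + 1)) ≤ ε := by
    have h4 : (K : ℝ) ≤ D.Q (k + 1) := by
      have h5 := D.Q_lin (k + 1)
      have h6 : (K : ℤ) ≤ D.Q (k + 1) := by
        push_cast at h5
        omega
      exact_mod_cast h6
    rw [div_lt_iff₀ hε] at hK
    have hQ1 := D.Q_pos (k + 1)
    rw [mul_div_assoc', div_le_iff₀ hQ1]
    nlinarith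
  linarith

lemma approx' (a b : ℤ) (hb : 1 ≤ b) :
    4 / (D.M : ℝ) / (b : ℝ) ^ 2 ≤ |D.alpha - (a : ℝ) / b| := by
  have h := D.approx a b hb
  have hbR : (1 : ℝ) ≤ b := by exact_mod_cast hb
  have hb0 : (0 : ℝ) < b := by linarith
  have hM : (0 : ℝ) < D.M := by exact_mod_cast D.M_pos
  have h1 : |D.alpha - (a : ℝ) / b| = |(b : ℝ) * D.alpha - a| / b := by
    rw [eq_div_iff hb0.ne']
    nth_rewrite 2 [← abs_of_pos hb0]
    rw [← abs_mul]
    congr 1
    field_simp
  rw [h1, le_div_iff₀ hb0]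
  refine le_trans (le_of_eq ?_) h
  field_simp

lemma irrational : Irrational D.alpha := by
  rintro ⟨r, hr⟩
  have h := D.approx r.num r.den (by exact_mod_cast r.pos)
  rw [← hr] at h
  have h2 : ((r.den : ℤ) : ℝ) * (r : ℝ) - (r.num : ℝ) = 0 := by
    have : (r : ℝ) = (r.num : ℝ) / (r.den : ℝ) := by exact_mod_cast (Rat.num_div_den r).symm
    rw [this]
    have hd : (r.den : ℝ) ≠ 0 := by exact_mod_cast r.den_nz
    push_cast
    field_simp
    ring
  rw [h2, abs_zero] at h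
  have hM : (0 : ℝ) < D.M := by exact_mod_cast D.M_pos
  have hd : (0 : ℝ) < ((r.den : ℤ) : ℝ) := by exact_mod_cast r.pos
  have : 0 < 4 / ((D.M : ℝ) * ((r.den : ℤ) : ℝ)) := by positivity
  linarith

/-- different data give different numbers -/
lemma n_congr (D D' : Dat) (hm : D.m = D'.m) (k : ℕ) (he : ∀ i < k, D.e i = D'.e i) :
    D.n k = D'.n k := by
  induction k with
  | zero => exact hm
  | succ k ih =>
    rw [n_succ, n_succ, ih (fun i hi => he i (by omega)), he k (by omega)]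

lemma alpha_ne (D D' : Dat) (hm : D.m = D'.m) (hp : D.p0 = D'.p0) (h : D.alpha = D'.alpha) :
    D.e = D'.e := by
  classical
  by_contra hne
  have hex : ∃ k, D.e k ≠ D'.e k := by
    by_contra hcon
    push Not at hcon
    exact hne (funext hcon)
  set k := Nat.find hex with hk
  have h1 : D.e k ≠ D'.e k := Nat.find_spec hex
  have h2 : ∀ i < k, D.e i = D'.e i := by
    intro i hi
    have := Nat.find_min hex hi
    push Not at this
    exact this
  have hn := n_congr D D' hm k h2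
  have hQ : D.Q k = D'.Q k := by unfold Q; rw [hn]
  have hpk : (D.p k : ℝ) / (D.Q k : ℝ) = (D'.p k : ℝ) / (D'.Q k : ℝ) := by
    rw [← partial_sum, ← partial_sum, hm, hp]
    congr 1
    apply Finset.sum_congr rfl
    intro i hi
    rw [Finset.mem_range] at hi
    rw [n_congr D D' hm (i + 1) (fun j hj => h2 j (by omega))]
  have hS : D.S k = D'.S k := by
    have h3 := D.alpha_eq k
    have h4 := D'.alpha_eq k
    linarith
  have hcase : ∀ D D' : Dat, D.Q k = D'.Q k → D.S k = D'.S k → D.e k = 1 → D'.e k = 2 → False := by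
    intro D D' hQ hS h5 h6
    have h7 := D.S_lower k
    have h8 := D'.S_upper k
    rw [Q_succ_cast, h5] at h7
    rw [Q_succ_cast, h6, ← hQ, ← hS] at h8
    have hQ0 := D.Q_pos k
    have h9 : (2 : ℝ) / (4 ^ 2 * (D.Q k : ℝ) ^ 2) < 1 / (4 ^ 1 * (D.Q k : ℝ) ^ 2) := by
      rw [div_lt_div_iff₀ (by positivity) (by positivity)]
      nlinarith [pow_pos hQ0 2]
    linarith
  have e1 := D.he1 k
  have e2 := D.he2 k
  have e3 := D'.he1 k
  have e4 := D'.he2 k
  rcases (by omega : D.e k = 1 ∧ D'.e k = 2 ∨ D'.e k = 1 ∧ D.e k = 2) with ⟨h5, h6⟩ | ⟨h5, h6⟩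
  · exact hcase D D' hQ hS h5 h6
  · exact hcase D' D hQ.symm hS.symm h5 h6

end Dat

end Pool.Agent.R507.SB
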