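import Mathlib

/-!
# Badly approximable numbers with infinitely many square convergent denominators

`Q (k+1) = 4^(e k) * Q k ^ 2`, `p (k+1) = 4^(e k) * Q k * p k + 1`, `Q k = 4^(n k)`.
-/

set_option autoImplicit false

namespace Pool.Agent.R507.SB

structure Dat where
  m : ℕ
  p0 : ℤ
  e : ℕ → ℕ
  hm : 1 ≤ m
  hp : IsCoprime p0 2
  he1 : ∀ k, 1 ≤ e k
  he2 : ∀ k, e k ≤ 2

namespace Dat

variable (D : Dat)

/-- the exponents -/
def n : ℕ → ℕ
  | 0 => D.m
  | k + 1 => 2 * n k + D.e k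

/-- the denominators -/
def Q (k : ℕ) : ℤ := 4 ^ D.n k

/-- the numerators -/
def p : ℕ → ℤ
  | 0 => D.p0
  | k + 1 => 4 ^ D.e k * D.Q k * p k + 1

/-- the constant -/
def M : ℤ := 9 * (4 ^ D.m + 16)

lemma n_succ (k : ℕ) : D.n (k + 1) = 2 * D.n k + D.e k := rfl

lemma Q_succ (k : ℕ) : D.Q (k + 1) = 4 ^ D.e k * D.Q k ^ 2 := by
  unfold Q
  rw [n_succ, pow_add, pow_mul, ← pow_mul, ← pow_mul, mul_comm, mul_comm 2 (D.n k)]

lemma p_succ (k : ℕ) : D.p (k + 1) = 4 ^ D.e k * D.Q k * D.p k + 1 := rfl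

lemma n_pos : ∀ k, 1 ≤ D.n k
  | 0 => D.hm
  | k + 1 => by
    have h1 := n_pos k
    rw [n_succ]
    omega

lemma n_grow (k : ℕ) : D.n k + 2 ≤ D.n (k + 1) := by
  have h1 := D.n_pos k
  have h2 := D.he1 k
  rw [n_succ]
  omega

lemma n_lin : ∀ k, k + 1 ≤ D.n k
  | 0 => D.hm
  | k + 1 => by
    have h1 := n_lin k
    have h2 := D.n_grow k
    omega

lemma n_add (k i : ℕ) : D.n k + i ≤ D.n (i + k) := by
  induction i with
  | zero => simp
  | succ i ih =>
    have h := D.n_grow (i + k)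
    have h2 : i + 1 + k = (i + k) + 1 := by ring
    rw [h2]
    omega

lemma Q_ge (k : ℕ) : 4 ≤ D.Q k := by
  unfold Q
  have h := D.n_pos k
  calc (4 : ℤ) = 4 ^ 1 := by norm_num
    _ ≤ 4 ^ D.n k := pow_le_pow_right₀ (by norm_num) h

lemma X_ge (k : ℕ) : (4 : ℤ) ≤ 4 ^ D.e k := by
  calc (4 : ℤ) = 4 ^ 1 := by norm_num
    _ ≤ 4 ^ D.e k := pow_le_pow_right₀ (by norm_num) (D.he1 k)

lemma X_le (k : ℕ) : (4 : ℤ) ^ D.e k ≤ 16 := by
  calc (4 : ℤ) ^ D.e k ≤ 4 ^ 2 := pow_le_pow_right₀ (by norm_num) (D.he2 k)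
    _ = 16 := by norm_num

lemma coprime : ∀ k, IsCoprime (D.p k) (D.Q k)
  | 0 => by
    show IsCoprime D.p0 (4 ^ D.m)
    have : (4 : ℤ) ^ D.m = 2 ^ (2 * D.m) := by rw [pow_mul]; norm_num
    rw [this]
    exact D.hp.pow_right
  | k + 1 => by
    refine ⟨1 - 4 ^ D.e k * D.p k * D.Q k, 4 ^ D.e k * D.p k ^ 2, ?_⟩
    rw [Q_succ, p_succ]
    ring

/-- the numerical inequality behind the induction -/
lemma num_step (X q β τ v M : ℤ) (hX : 4 ≤ X) (hq : 4 ≤ q) (hβ : 1 ≤ β) (hβq : β < q)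
    (hτ : 1 ≤ τ) (hv : X * q * τ - β ≤ v)
    (IH : q * (2 * β + 1) * (2 * τ + 1) ≤ M * (β * τ) ^ 2) :
    X * q ^ 2 * (2 * β + 1) * (2 * v + 1) ≤ M * (β * v) ^ 2 := by
  have hXq : 4 * q ≤ X * q := by nlinarith
  have hXq0 : 0 < X * q := by nlinarith
  have hXqτ : X * q ≤ X * q * τ := by nlinarith
  have hv0 : 3 * q < v := by nlinarith
  -- `4 v ≥ (4 - 1/τ) y` in the form `4 τ v ≥ (4 τ - 1) y`, `y = X q τ`
  have hβy : 4 * β ≤ X * q := by nlinarith
  set y := X * q * τ with hy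
  have h1 : 4 * v ≥ 4 * y - X * q := by linarith
  have h2 : τ * (X * q) = y := by rw [hy]; ring
  have h3 : 4 * τ * v ≥ (4 * τ - 1) * y := by nlinarith
  -- the key inequality `y τ (2 v + 1) ≤ (2 τ + 1) v ^ 2`
  have hkey : y * τ * (2 * v + 1) ≤ (2 * τ + 1) * v ^ 2 := by
    have h4 : y ≥ 16 * τ := by rw [hy]; nlinarith
    have h5 : 0 < y := by nlinarith
    -- it suffices that `(2τ+1) v^2 - 2 y τ v - y τ ≥ 0`
    have h6 : 2 * y * τ + y ≤ (2 * τ + 1) * v + (2 * τ + 1) * (y - v) := by nlinarith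
    by_cases hvy : y ≤ v
    · nlinarith
    · push Not at hvy
      -- `v = y - w`, `0 < w ≤ X q / 4`
      have hw : 4 * (y - v) ≤ X * q := by linarith
      have hw2 : 4 * τ * (y - v) ≤ y := by nlinarith
      -- (2τ+1) v - 2 y τ = y - (2τ+1)(y - v) ≥ y - (2τ+1)/(4τ) y ≥ y/4
      have h7 : 4 * ((2 * τ + 1) * v - 2 * y * τ) ≥ y := by nlinarith
      have h8 : 4 * (v * ((2 * τ + 1) * v - 2 * y * τ)) ≥ v * y := by nlinarith
      have h9 : v ≥ 4 * τ := by nlinarith
      nlinarith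
  have hβ2 : 0 ≤ (2 * β + 1) := by linarith
  -- from IH multiplied by `v^2` and divided by `τ^2`
  have hτ2 : 0 < τ ^ 2 := by positivity
  have h10 : τ ^ 2 * (X * q ^ 2 * (2 * β + 1) * (2 * v + 1)) ≤ τ ^ 2 * (M * (β * v) ^ 2) := by
    calc τ ^ 2 * (X * q ^ 2 * (2 * β + 1) * (2 * v + 1))
        = (q * (2 * β + 1)) * (y * τ * (2 * v + 1)) := by rw [hy]; ring
      _ ≤ (q * (2 * β + 1)) * ((2 * τ + 1) * v ^ 2) :=
          mul_le_mul_of_nonneg_left hkey (by positivity)
      _ = (q * (2 * β + 1) * (2 * τ + 1)) * v ^ 2 := by ring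
      _ ≤ (M * (β * τ) ^ 2) * v ^ 2 := mul_le_mul_of_nonneg_right IH (by positivity)
      _ = τ ^ 2 * (M * (β * v) ^ 2) := by ring
  exact le_of_mul_le_mul_left h10 hτ2

/-- the approximation property of `p k / Q k` -/
lemma key : ∀ k : ℕ, ∀ b a : ℤ, b ≠ 0 → |b| < D.Q k →
    D.Q k * (2 * |b| + 1) * (2 * |b * D.p k - a * D.Q k| + 1) ≤
      D.M * (|b| * |b * D.p k - a * D.Q k|) ^ 2
  | 0 => by
    intro b a hb hlt
    have h1 : (1 : ℤ) ≤ |b| := Int.one_le_abs hb
    have hne : b * D.p 0 - a * D.Q 0 ≠ 0 := by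
      intro h
      have h3 : D.Q 0 ∣ b := by
        have h4 : D.Q 0 ∣ b * D.p 0 := ⟨a, by linarith⟩
        exact (D.coprime 0).symm.dvd_of_dvd_mul_right h4
      have := Int.le_of_dvd (abs_pos.mpr hb) ((dvd_abs _ _).mpr h3)
      omega
    have h2 : (1 : ℤ) ≤ |b * D.p 0 - a * D.Q 0| := Int.one_le_abs hne
    set v := |b * D.p 0 - a * D.Q 0|
    have hQ : D.Q 0 = 4 ^ D.m := rfl
    have hM : D.M = 9 * D.Q 0 + 144 := by unfold M; rw [hQ]; ring
    have hQ4 := D.Q_ge 0
    rw [hM]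
    have h3 : (2 * |b| + 1) * (2 * v + 1) ≤ 9 * (|b| * v) := by nlinarith
    have h4 : (1 : ℤ) ≤ |b| * v := by nlinarith
    have h5 : |b| * v ≤ (|b| * v) ^ 2 := by nlinarith
    calc D.Q 0 * (2 * |b| + 1) * (2 * v + 1) = D.Q 0 * ((2 * |b| + 1) * (2 * v + 1)) := by ring
      _ ≤ D.Q 0 * (9 * (|b| * v)) := mul_le_mul_of_nonneg_left h3 (by linarith)
      _ ≤ D.Q 0 * (9 * (|b| * v) ^ 2) := by
          apply mul_le_mul_of_nonneg_left _ (by linarith)
          linarith
      _ ≤ (9 * D.Q 0 + 144) * (|b| * v) ^ 2 := by nlinarith [sq_nonneg (|b| * v)]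
  | k + 1 => by
    intro b a hb hlt
    have IH := key k
    have hQ := D.Q_ge k
    have hX := D.X_ge k
    have hX2 := D.X_le k
    have hcop := D.coprime k
    rw [Q_succ] at hlt
    rw [Q_succ, p_succ]
    have hM : 9 * 16 ≤ D.M := by
      unfold M
      have : (0 : ℤ) < 4 ^ D.m := by positivity
      linarith
    set q := D.Q k with hq
    set P := D.p k with hP
    set X : ℤ := 4 ^ D.e k with hXdef
    set M := D.M with hMdef
    set t := b * P - a * q with ht
    have hr : b * (X * q * P + 1) - a * (X * q ^ 2) = b + X * q * t := by rw [ht]; ring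
    rw [hr]
    set r := b + X * q * t with hrdef
    have hb1 : (1 : ℤ) ≤ |b| := Int.one_le_abs hb
    have hXq0 : 0 < X * q := by positivity
    -- the case where both are at least `q`
    have hbig : ∀ β v : ℤ, q ≤ β → q ≤ v →
        X * q ^ 2 * (2 * β + 1) * (2 * v + 1) ≤ M * (β * v) ^ 2 := by
      intro β v h1 h2
      have h3 : (2 * β + 1) * (2 * v + 1) ≤ 9 * (β * v) := by nlinarith
      have h4 : q ^ 2 ≤ β * v := by nlinarith
      have h5 : 0 ≤ β * v := by nlinarith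
      calc X * q ^ 2 * (2 * β + 1) * (2 * v + 1)
          = X * q ^ 2 * ((2 * β + 1) * (2 * v + 1)) := by ring
        _ ≤ X * q ^ 2 * (9 * (β * v)) := mul_le_mul_of_nonneg_left h3 (by positivity)
        _ = (9 * X) * (q ^ 2 * (β * v)) := by ring
        _ ≤ M * (q ^ 2 * (β * v)) := by
            apply mul_le_mul_of_nonneg_right _ (by positivity)
            linarith
        _ ≤ M * ((β * v) * (β * v)) := by
            apply mul_le_mul_of_nonneg_left _ (by linarith)
            exact mul_le_mul_of_nonneg_right h4 h5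
        _ = M * (β * v) ^ 2 := by ring
    by_cases ht0 : t = 0
    · have hr' : r = b := by rw [hrdef, ht0]; ring
      rw [hr']
      have hdvd : q ∣ b := by
        have : q ∣ b * P := ⟨a, by rw [ht] at ht0; linarith⟩
        exact hcop.symm.dvd_of_dvd_mul_right this
      have h1 : q ≤ |b| := Int.le_of_dvd (abs_pos.mpr hb) ((dvd_abs _ _).mpr hdvd)
      exact hbig _ _ h1 h1
    · have ht1 : (1 : ℤ) ≤ |t| := Int.one_le_abs ht0
      have hXqt : |X * q * t| = X * q * |t| := by rw [abs_mul, abs_of_pos hXq0]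
      have hr1 : X * q * |t| - |b| ≤ |r| := by
        have h1 := abs_sub_abs_le_abs_sub (X * q * t) (-b)
        rw [abs_neg, hXqt] at h1
        have h2 : X * q * t - -b = r := by rw [hrdef]; ring
        rwa [h2] at h1
      have hb2 : X * q * |t| - |r| ≤ |b| := by
        have h1 := abs_sub_abs_le_abs_sub (X * q * t) r
        rw [hXqt] at h1
        have h2 : X * q * t - r = -b := by rw [hrdef]; ring
        rwa [h2, abs_neg] at h1
      by_cases hbq : |b| < q
      · exact num_step X q |b| |t| |r| M hX hQ hb1 hbq ht1 hr1 (IH b a hb hbq)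
      · push Not at hbq
        by_cases hrq : q ≤ |r|
        · exact hbig _ _ hbq hrq
        · push Not at hrq
          have hr0 : r ≠ 0 := by
            intro h0
            have h1 : X * q ^ 2 ∣ b := by
              have h2 : IsCoprime (X * q ^ 2) (X * q * P + 1) := by
                have := D.coprime (k + 1)
                rw [Q_succ, p_succ] at this
                exact this.symm
              have h3 : X * q ^ 2 ∣ b * (X * q * P + 1) := ⟨a, by rw [h0] at hr; linarith⟩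
              exact h2.dvd_of_dvd_mul_right h3
            have := Int.le_of_dvd (abs_pos.mpr hb) ((dvd_abs _ _).mpr h1)
            omega
          have hr2 : (1 : ℤ) ≤ |r| := Int.one_le_abs hr0
          have h1 := IH r (a + X * t * P) hr0 hrq
          have h2 : r * P - (a + X * t * P) * q = t := by rw [hrdef]; linarith
          rw [h2] at h1
          have h3 := num_step X q |r| |t| |b| M hX hQ hr2 hrq ht1 hb2 h1
          calc X * q ^ 2 * (2 * |b| + 1) * (2 * |r| + 1)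
              = X * q ^ 2 * (2 * |r| + 1) * (2 * |b| + 1) := by ring
            _ ≤ M * (|r| * |b|) ^ 2 := h3
            _ = M * (|b| * |r|) ^ 2 := by ring

lemma key' (k : ℕ) (b a : ℤ) (hb : b ≠ 0) (hlt : |b| < D.Q k) :
    4 * D.Q k ≤ D.M * (|b| * |b * D.p k - a * D.Q k|) := by
  have h := D.key k b a hb hlt
  have h1 : (1 : ℤ) ≤ |b| := Int.one_le_abs hb
  have hne : b * D.p k - a * D.Q k ≠ 0 := by
    intro h
    have h3 : D.Q k ∣ b := by
      have h4 : D.Q k ∣ b * D.p k := ⟨a, by linarith⟩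
      exact (D.coprime k).symm.dvd_of_dvd_mul_right h4
    have := Int.le_of_dvd (abs_pos.mpr hb) ((dvd_abs _ _).mpr h3)
    omega
  have h2 : (1 : ℤ) ≤ |b * D.p k - a * D.Q k| := Int.one_le_abs hne
  set v := |b * D.p k - a * D.Q k|
  have hQ := D.Q_ge k
  have hbv : 0 < |b| * v := by positivity
  have h3 : D.Q k * (4 * (|b| * v)) ≤ D.M * (|b| * v) ^ 2 := by
    refine le_trans ?_ h
    have : (4 * (|b| * v)) ≤ (2 * |b| + 1) * (2 * v + 1) := by nlinarith
    calc D.Q k * (4 * (|b| * v)) ≤ D.Q k * ((2 * |b| + 1) * (2 * v + 1)) :=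
          mul_le_mul_of_nonneg_left this (by linarith)
      _ = _ := by ring
  have h4 : (|b| * v) * (4 * D.Q k) ≤ (|b| * v) * (D.M * (|b| * v)) := by linarith
  exact le_of_mul_le_mul_left h4 hbv

end Dat

end Pool.Agent.R507.SB
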