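import Pool.Agent.R507.SB.Alpha

/-!
# Clusters of `{n² α}` and lower bounds for the correlations
-/

set_option autoImplicit false

namespace Pool.Agent.R507.SB

open Filter Topology
open Pool.Agent.Results.MP_ba281e_nt.NoPoissonSubseq (x corr IsOfType PoissonianAlong bump
  bump_continuous bump_nonneg bump_compact)

namespace Dat

variable (D : Dat)

/-- `θ_k = Q_k (α - p_k / Q_k)` -/
noncomputable def th (k : ℕ) : ℝ := D.Q k * D.S k

lemma th_pos (k : ℕ) : 0 < D.th k := mul_pos (D.Q_pos k) (D.S_pos k)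

lemma th_le (k : ℕ) : 2 * D.Q k * D.th k ≤ 1 := by
  have hQ := D.Q_pos k
  have h1 := D.S_upper k
  rw [Q_succ_cast] at h1
  have hX : (4 : ℝ) ≤ (4 : ℝ) ^ D.e k := by exact_mod_cast D.X_ge k
  have h2 : D.S k ≤ 1 / (2 * (D.Q k : ℝ) ^ 2) := by
    refine h1.trans ?_
    rw [div_le_div_iff₀ (by positivity) (by positivity)]
    nlinarith [pow_pos hQ 2]
  have h3 : 2 * (D.Q k : ℝ) * D.th k = (2 * (D.Q k : ℝ) ^ 2) * D.S k := by unfold th; ring
  rw [h3]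
  calc (2 * (D.Q k : ℝ) ^ 2) * D.S k ≤ (2 * (D.Q k : ℝ) ^ 2) * (1 / (2 * (D.Q k : ℝ) ^ 2)) :=
        mul_le_mul_of_nonneg_left h2 (by positivity)
    _ = 1 := by field_simp

lemma x_form (k u : ℕ) (ht : (u : ℝ) ^ 2 * D.th k < 1) :
    x D.alpha (2 ^ D.n k * u) = (u : ℝ) ^ 2 * D.th k := by
  have hth := D.th_pos k
  have hQ := D.Q_pos k
  have hq4 : (D.Q k : ℝ) = ((2 : ℝ) ^ D.n k) ^ 2 := by
    rw [Q_cast, ← pow_mul, mul_comm, pow_mul]
    norm_num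
  have h1 : (((2 ^ D.n k * u : ℕ) : ℝ)) ^ 2 * D.alpha =
      (u : ℝ) ^ 2 * D.th k + ((u ^ 2 * D.p k : ℤ) : ℝ) := by
    rw [D.alpha_eq k]
    unfold th
    push_cast
    rw [mul_pow, ← hq4]
    field_simp
    ring
  unfold x
  rw [h1, Int.fract_add_intCast]
  exact Int.fract_eq_self.mpr ⟨by positivity, ht⟩

lemma x_close (k u u' U : ℕ) (huU : u ≤ U) (huU' : u' ≤ U)
    (ε : ℝ) (hε : ε < 1) (hU : (U : ℝ) ^ 2 * D.th k ≤ ε) :
    |x D.alpha (2 ^ D.n k * u) - x D.alpha (2 ^ D.n k * u')| ≤ ε := by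
  have hth := D.th_pos k
  have hbd : ∀ w : ℕ, w ≤ U → 0 ≤ (w : ℝ) ^ 2 * D.th k ∧ (w : ℝ) ^ 2 * D.th k ≤ ε := by
    intro w hwU
    have hwU' : (w : ℝ) ≤ U := by exact_mod_cast hwU
    refine ⟨by positivity, le_trans ?_ hU⟩
    have h1 : (w : ℝ) ^ 2 ≤ (U : ℝ) ^ 2 := pow_le_pow_left₀ (by positivity) hwU' 2
    exact mul_le_mul_of_nonneg_right h1 hth.le
  have h1 := hbd u huU
  have h2 := hbd u' huU'
  rw [x_form D k u (by linarith), x_form D k u' (by linarith)]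
  rw [abs_le]
  constructor <;> linarith

/-- lower bound for the correlation at `N` from one convergent -/
lemma corr_lower' (d k L N : ℕ) (hN : 2 ≤ N) (δ c : ℝ) (hδ1 : δ ≤ 1)
    (f : (Fin d → ℝ) → ℝ) (hf0 : ∀ y, 0 ≤ f y) (hc : HasCompactSupport f)
    (hfc : ∀ y : Fin d → ℝ, (∀ i, |y i| ≤ δ) → c ≤ f y)
    (h1 : 2 ^ D.n k * ((d + 1) * L) ≤ N)
    (h2 : (((d + 1) * L : ℕ) : ℝ) ^ 2 * D.th k * N ≤ δ) :
    c * ((L : ℝ) ^ (d + 1)) / N ≤ corr d N D.alpha f := by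
  classical
  have hv0 : 0 < 2 ^ D.n k := by positivity
  set v : ℕ := 2 ^ D.n k with hv
  let T : Finset (Fin (d + 1) → ℕ) := Fintype.piFinset fun i : Fin (d + 1) =>
    (Finset.Icc 1 L).image (fun w => v * ((i : ℕ) * L + w))
  have hcard : T.card = L ^ (d + 1) := by
    rw [Fintype.card_piFinset]
    have : ∀ i : Fin (d + 1),
        ((Finset.Icc 1 L).image (fun w => v * ((i : ℕ) * L + w))).card = L := by
      intro i
      rw [Finset.card_image_of_injective, Nat.card_Icc]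
      · omega
      · intro a b hab
        have := Nat.eq_of_mul_eq_mul_left hv0 hab
        omega
    rw [Finset.prod_congr rfl (fun i _ => this i)]
    simp
  have hmem : ∀ n ∈ T, ∀ i : Fin (d + 1), ∃ w : ℕ, 1 ≤ w ∧ w ≤ L ∧
      n i = v * ((i : ℕ) * L + w) := by
    intro n hn i
    have := Fintype.mem_piFinset.mp hn i
    rw [Finset.mem_image] at this
    obtain ⟨w, hw, hw2⟩ := this
    rw [Finset.mem_Icc] at hw
    exact ⟨w, hw.1, hw.2, hw2.symm⟩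
  have hbd : ∀ (i : Fin (d + 1)) (w : ℕ), w ≤ L → (i : ℕ) * L + w ≤ (d + 1) * L := by
    intro i w hw
    have hi : (i : ℕ) + 1 ≤ d + 1 := i.isLt
    calc (i : ℕ) * L + w ≤ (i : ℕ) * L + L := by omega
      _ = ((i : ℕ) + 1) * L := by ring
      _ ≤ (d + 1) * L := Nat.mul_le_mul_right _ hi
  have hT : T ⊆ (Fintype.piFinset fun _ : Fin (d + 1) => Finset.Icc 1 N).filter
        (fun n => Function.Injective n) := by
    intro n hn
    rw [Finset.mem_filter, Fintype.mem_piFinset]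
    constructor
    · intro i
      obtain ⟨w, hw1, hw2, hw3⟩ := hmem n hn i
      rw [Finset.mem_Icc, hw3]
      constructor
      · exact Nat.mul_pos hv0 (by omega)
      · exact (Nat.mul_le_mul_left _ (hbd i w hw2)).trans h1
    · intro i i' hii
      obtain ⟨w, hw1, hw2, hw3⟩ := hmem n hn i
      obtain ⟨w', hw1', hw2', hw3'⟩ := hmem n hn i'
      rw [hw3, hw3'] at hii
      have h4 := Nat.eq_of_mul_eq_mul_left hv0 hii
      by_contra hne
      have hne' : (i : ℕ) ≠ (i' : ℕ) := fun h => hne (Fin.ext h)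
      rcases Nat.lt_or_gt_of_ne hne' with hlt | hlt
      · have : ((i : ℕ) + 1) * L ≤ (i' : ℕ) * L := Nat.mul_le_mul_right _ hlt
        rw [Nat.add_mul, one_mul] at this
        omega
      · have : ((i' : ℕ) + 1) * L ≤ (i : ℕ) * L := Nat.mul_le_mul_right _ hlt
        rw [Nat.add_mul, one_mul] at this
        omega
  have hNR : (2 : ℝ) ≤ N := by exact_mod_cast hN
  have hε : δ / N < 1 := by
    rw [div_lt_one (by linarith)]
    linarith
  have hU : (((d + 1) * L : ℕ) : ℝ) ^ 2 * D.th k ≤ δ / N := by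
    rw [le_div_iff₀ (by linarith)]
    exact h2
  have hcl : ∀ n ∈ T, ∀ i i', |x D.alpha (n i) - x D.alpha (n i')| ≤ δ / N := by
    intro n hn i i'
    obtain ⟨w, hw1, hw2, hw3⟩ := hmem n hn i
    obtain ⟨w', hw1', hw2', hw3'⟩ := hmem n hn i'
    rw [hw3, hw3', hv]
    exact D.x_close k _ _ ((d + 1) * L) (hbd i w hw2) (hbd i' w' hw2') (δ / N) hε hU
  have h3 := Pool.Agent.Y471.SQ3.corr_lower d N (by omega) D.alpha δ c f hf0 hc hfc T hT hcl
  rw [hcard] at h3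
  push_cast at h3
  exact h3

/-- the length of the cluster -/
def J (k : ℕ) : ℕ := 2 ^ (D.n k / 3)

/-- the subsequence -/
def NN (k : ℕ) : ℕ := 2 ^ D.n k * D.J k

lemma J_pos (k : ℕ) : (1 : ℝ) ≤ D.J k := by
  have : 1 ≤ D.J k := Nat.one_le_two_pow
  exact_mod_cast this

lemma J_cube (k : ℕ) : (D.J k : ℝ) ^ 3 ≤ 2 ^ D.n k ∧ (2 : ℝ) ^ D.n k ≤ 4 * (D.J k : ℝ) ^ 3 := by
  have h1 : (D.J k : ℝ) = 2 ^ (D.n k / 3) := by unfold J; push_cast; rfl
  rw [h1, ← pow_mul]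
  constructor
  · exact pow_le_pow_right₀ (by norm_num) (by omega)
  · have : (4 : ℝ) * 2 ^ (D.n k / 3 * 3) = 2 ^ (D.n k / 3 * 3 + 2) := by rw [pow_add]; ring
    rw [this]
    exact pow_le_pow_right₀ (by norm_num) (by omega)

lemma NN_cast (k : ℕ) : (D.NN k : ℝ) = 2 ^ D.n k * D.J k := by unfold NN; push_cast; rfl

lemma n_mono : StrictMono D.n := strictMono_nat_of_lt_succ (fun k => by
  have := D.n_grow k
  omega)

lemma NN_strict : StrictMono D.NN := by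
  intro a b hab
  have h1 := D.n_mono hab
  unfold NN J
  have h2 : 2 ^ D.n a < 2 ^ D.n b := Nat.pow_lt_pow_right (by norm_num) h1
  have h3 : 2 ^ (D.n a / 3) ≤ 2 ^ (D.n b / 3) := Nat.pow_le_pow_right (by norm_num)
    (Nat.div_le_div_right h1.le)
  exact Nat.mul_lt_mul_of_lt_of_le h2 h3 (by positivity)

lemma NN_two (k : ℕ) : 2 ≤ D.NN k := by
  unfold NN J
  have h1 := D.n_pos k
  have h2 : 2 ^ 1 ≤ 2 ^ D.n k := Nat.pow_le_pow_right (by norm_num) h1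
  have h3 : 1 ≤ 2 ^ (D.n k / 3) := Nat.one_le_two_pow
  nlinarith

lemma J_tendsto : Tendsto (fun k => (D.J k : ℝ)) atTop atTop := by
  have h1 : Tendsto (fun k => D.n k / 3) atTop atTop := by
    rw [tendsto_atTop]
    intro b
    filter_upwards [eventually_ge_atTop (3 * b)] with k hk
    have := D.n_lin k
    omega
  have h2 : (fun k => (D.J k : ℝ)) = (fun k => (2 : ℝ) ^ (D.n k / 3)) := by
    funext k
    unfold J
    push_cast
    rfl
  rw [h2]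
  exact (tendsto_pow_atTop_atTop_of_one_lt (by norm_num : (1 : ℝ) < 2)).comp h1

/-- the asymptotic form -/
theorem asym (d : ℕ) (f : (Fin d → ℝ) → ℝ) (hf0 : ∀ y, 0 ≤ f y)
    (hc : HasCompactSupport f) (ε c : ℝ) (hε0 : 0 < ε) (hε1 : ε ≤ 1) (hc0 : 0 ≤ c)
    (hfc : ∀ y : Fin d → ℝ, (∀ i, |y i| ≤ ε ^ 2) → c ≤ f y) :
    ∀ᶠ k : ℕ in atTop,
      c * (ε / (4 * ((d : ℝ) + 1))) ^ (d + 1) * (D.NN k : ℝ) ^ (((d : ℝ) + 1) / 4 - 1)
        ≤ corr d (D.NN k) D.alpha f := by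
  set κ : ℝ := ε / ((d : ℝ) + 1) with hκ
  have hκ0 : 0 < κ := by positivity
  have hev : ∀ᶠ k : ℕ in atTop, 1 ≤ κ * (D.J k : ℝ) :=
    (D.J_tendsto.const_mul_atTop hκ0).eventually_ge_atTop 1
  filter_upwards [hev] with k hk
  have hJ := D.J_pos k
  obtain ⟨hJ1, hJ2⟩ := D.J_cube k
  set L : ℕ := ⌊κ * D.J k⌋₊ with hL
  have hL1 : (L : ℝ) ≤ κ * D.J k := Nat.floor_le (by positivity)
  have hL2 : κ * D.J k / 2 ≤ L := by
    have h1 : κ * D.J k < L + 1 := Nat.lt_floor_add_one _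
    have h2 : 1 ≤ L := Nat.one_le_floor_iff _ |>.mpr hk
    have h3 : (1 : ℝ) ≤ L := by exact_mod_cast h2
    linarith
  have hcast : ((((d + 1) * L : ℕ)) : ℝ) = ((d : ℝ) + 1) * L := by push_cast; ring
  have hdL : ((d : ℝ) + 1) * L ≤ ε * D.J k := by
    calc ((d : ℝ) + 1) * L ≤ ((d : ℝ) + 1) * (κ * D.J k) :=
          mul_le_mul_of_nonneg_left hL1 (by positivity)
      _ = ε * D.J k := by rw [hκ]; field_simp
  have hmain := D.corr_lower' d k L (D.NN k) (D.NN_two k) (ε ^ 2) c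
    (pow_le_one₀ hε0.le hε1) f hf0 hc hfc (by
      have h1 : ((2 ^ D.n k * ((d + 1) * L) : ℕ) : ℝ) ≤ (D.NN k : ℝ) := by
        rw [NN_cast]
        push_cast
        apply mul_le_mul_of_nonneg_left _ (by positivity)
        calc ((d : ℝ) + 1) * L ≤ ε * D.J k := hdL
          _ ≤ 1 * D.J k := mul_le_mul_of_nonneg_right hε1 (by linarith)
          _ = D.J k := one_mul _
      exact_mod_cast h1) (by
      rw [hcast, NN_cast]
      have hth := D.th_pos k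
      have hth2 := D.th_le k
      have hQ : (D.Q k : ℝ) = (2 : ℝ) ^ D.n k * 2 ^ D.n k := by
        rw [Q_cast, ← mul_pow]; norm_num
      calc (((d : ℝ) + 1) * L) ^ 2 * D.th k * (2 ^ D.n k * D.J k)
          ≤ (ε * D.J k) ^ 2 * D.th k * (2 ^ D.n k * D.J k) := by gcongr
        _ = ε ^ 2 * ((D.J k : ℝ) ^ 3 * 2 ^ D.n k * D.th k) := by ring
        _ ≤ ε ^ 2 * (2 ^ D.n k * 2 ^ D.n k * D.th k) := by gcongr
        _ = ε ^ 2 * (D.Q k * D.th k) := by rw [hQ]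
        _ ≤ ε ^ 2 * 1 := by
            apply mul_le_mul_of_nonneg_left _ (by positivity)
            have := mul_pos (D.Q_pos k) hth
            linarith
        _ = ε ^ 2 := mul_one _)
  refine le_trans ?_ hmain
  have hN0 : (0 : ℝ) < D.NN k := by
    have := D.NN_two k
    positivity
  -- `N ≤ 4 J ^ 4 ≤ (2 J) ^ 4`
  have hNJ : (D.NN k : ℝ) ≤ (2 * D.J k) ^ 4 := by
    rw [NN_cast]
    calc (2 : ℝ) ^ D.n k * D.J k ≤ (4 * (D.J k : ℝ) ^ 3) * D.J k :=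
          mul_le_mul_of_nonneg_right hJ2 (by linarith)
      _ = 4 * (D.J k : ℝ) ^ 4 := by ring
      _ ≤ 16 * (D.J k : ℝ) ^ 4 := by
          have : 0 ≤ (D.J k : ℝ) ^ 4 := by positivity
          linarith
      _ = (2 * D.J k) ^ 4 := by ring
  have hpow : (D.NN k : ℝ) ^ (((d : ℝ) + 1) / 4 - 1) =
      ((D.NN k : ℝ) ^ ((1 : ℝ) / 4)) ^ (d + 1) / D.NN k := by
    rw [Real.rpow_sub hN0, Real.rpow_one]
    congr 1
    rw [← Real.rpow_natCast, ← Real.rpow_mul hN0.le]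
    congr 1
    push_cast
    ring
  have hroot : (D.NN k : ℝ) ^ ((1 : ℝ) / 4) ≤ 2 * D.J k := by
    calc (D.NN k : ℝ) ^ ((1 : ℝ) / 4) ≤ ((2 * (D.J k : ℝ)) ^ 4) ^ ((1 : ℝ) / 4) :=
          Real.rpow_le_rpow hN0.le hNJ (by norm_num)
      _ = 2 * D.J k := by
          rw [← Real.rpow_natCast, ← Real.rpow_mul (by positivity)]
          norm_num
  rw [hpow]
  have hr0 : 0 ≤ (D.NN k : ℝ) ^ ((1 : ℝ) / 4) := by positivity
  have h2 : c * (ε / (4 * ((d : ℝ) + 1))) ^ (d + 1) *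
      (((D.NN k : ℝ) ^ ((1 : ℝ) / 4)) ^ (d + 1) / D.NN k) =
      c * (ε / (4 * ((d : ℝ) + 1)) * (D.NN k : ℝ) ^ ((1 : ℝ) / 4)) ^ (d + 1) / D.NN k := by
    rw [mul_pow]
    ring
  rw [h2]
  have h3 : ε / (4 * ((d : ℝ) + 1)) * (D.NN k : ℝ) ^ ((1 : ℝ) / 4) ≤ L := by
    refine le_trans ?_ hL2
    calc ε / (4 * ((d : ℝ) + 1)) * (D.NN k : ℝ) ^ ((1 : ℝ) / 4)
        ≤ ε / (4 * ((d : ℝ) + 1)) * (2 * D.J k) := mul_le_mul_of_nonneg_left hroot (by positivity)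
      _ = κ * D.J k / 2 := by rw [hκ]; field_simp; ring
  have h4 : 0 ≤ ε / (4 * ((d : ℝ) + 1)) * (D.NN k : ℝ) ^ ((1 : ℝ) / 4) := by positivity
  gcongr

end Dat

end Pool.Agent.R507.SB
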